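import Pool.Agent.U174.AO.Stm

/-!
# Project AO (helper174), package RCF (helper373)
-/

set_option autoImplicit false

namespace Pool.Agent.U373.AO

open IsLocalRing Polynomial Pool.Agent.U174.AK Pool.Agent.U174.AO

section
variable {K : Type} [Field K] [LinearOrder K] [IsStrictOrderedRing K]

/-- the elements of the maximal ideal of a henselian valuation ring of an ordered field are small -/
lemma small (A : ValuationSubring K) (hA : HenselianLocalRing A) (c : A)
    (hc : c ∈ maximalIdeal A) : (c : K) ≤ 1 / 4 := by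
  have hf : (X ^ 2 + X + C c : A[X]).Monic := by monicity!
  obtain ⟨a, ha, -⟩ := hA.is_henselian (X ^ 2 + X + C c) hf 0 (by simpa using hc) (by simp)
  have h : a ^ 2 + a + c = 0 := by simpa [IsRoot.def] using ha
  have h' : (a : K) ^ 2 + a + c = 0 := by
    have := congrArg (fun z : A => (z : K)) h
    simpa using this
  nlinarith [sq_nonneg (2 * (a : K) + 1)]

lemma inv_max {K : Type} [Field K] (A : ValuationSubring K) {x : K} (hx : x ∉ A) :
    ∃ c : A, c ∈ maximalIdeal A ∧ (c : K) = x⁻¹ := by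
  have hx1 : x⁻¹ ∈ A := (A.mem_or_inv_mem x).resolve_left hx
  have hx0 : x ≠ 0 := fun h => hx (h ▸ A.zero_mem)
  refine ⟨⟨x⁻¹, hx1⟩, ?_, rfl⟩
  rw [IsLocalRing.mem_maximalIdeal, mem_nonunits_iff]
  intro hu
  obtain ⟨b, hb⟩ := hu.exists_right_inv
  have h1 : x⁻¹ * (b : K) = 1 := by
    have := congrArg (fun z : A => (z : K)) hb
    simpa using this
  have h2 : x = b := by
    field_simp at h1
    exact h1.symm
  exact hx (h2 ▸ b.2)

lemma conv (A : ValuationSubring K) (hA : HenselianLocalRing A) {x y : K} (h0 : 0 ≤ x)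
    (hxy : x ≤ y) (hy : y ∈ A) : x ∈ A := by
  by_contra hx
  have hx0 : x ≠ 0 := fun h => hx (h ▸ A.zero_mem)
  have hxpos : 0 < x := lt_of_le_of_ne h0 (Ne.symm hx0)
  obtain ⟨c, hc, hcx⟩ := inv_max A hx
  have h1 := small A hA (⟨y, hy⟩ * c) (Ideal.mul_mem_left _ _ hc)
  have h2 : (((⟨y, hy⟩ * c : A)) : K) = y * x⁻¹ := by
    rw [← hcx]
    rfl
  rw [h2] at h1
  have h3 : 1 ≤ y * x⁻¹ := by
    rw [← div_eq_mul_inv, le_div_iff₀ hxpos]
    linarith
  linarith

lemma abs_mem (A : ValuationSubring K) (a : K) : |a| ∈ A ↔ a ∈ A := by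
  rcases abs_choice a with h | h
  · rw [h]
  · rw [h]
    exact neg_mem_iff

lemma comp (A B : ValuationSubring K) (hA : HenselianLocalRing A) (hB : HenselianLocalRing B) :
    A ≤ B ∨ B ≤ A := by
  by_cases h : A ≤ B
  · exact Or.inl h
  · right
    obtain ⟨a, haA, haB⟩ := SetLike.not_le_iff_exists.1 h
    intro b hb
    have h1 : |b| ≤ |a| := by
      by_contra hc
      have hc' : |a| ≤ |b| := le_of_lt (not_le.1 hc)
      exact haB ((abs_mem B a).1 (conv B hB (abs_nonneg a) hc' ((abs_mem B b).2 hb)))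
    exact (abs_mem A b).1 (conv A hA (abs_nonneg b) h1 ((abs_mem A a).2 haA))

lemma char0 (A : ValuationSubring K) (hA : HenselianLocalRing A) : CharZero (ResidueField A) := by
  refine charZero_of_inj_zero (fun n hn => ?_)
  have h1 : residue A (n : A) = 0 := by
    rw [map_natCast]
    exact hn
  rw [residue_eq_zero_iff] at h1
  have h2 := small A hA (n : A) h1
  have h3 : (((n : A)) : K) = (n : K) := by simp
  rw [h3] at h2
  by_contra h4
  have h5 : (1 : K) ≤ n := by
    exact_mod_cast Nat.one_le_iff_ne_zero.2 h4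
  linarith

lemma cone : Cone {x : K | 0 < x} where
  zero := fun h => lt_irrefl _ h
  tot := fun x hx => by
    rcases lt_or_gt_of_ne hx with h | h
    · exact Or.inr (neg_pos.2 h)
    · exact Or.inl h
  add := fun x hx y hy => add_pos hx hy
  mul := fun x hx y hy => mul_pos hx hy

end

/-- a unit whose residue is a square is a square -/
lemma sq_lift {K : Type} [Field K] (W : ValuationSubring K) (hW : HenselianLocalRing W)
    (h2 : CharZero (ResidueField W)) (u : W) (hu : IsUnit u) (h : IsSquare (residue W u)) :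
    ∃ w : W, w ^ 2 = u := by
  obtain ⟨s, hs⟩ := h
  obtain ⟨a, ha⟩ := residue_surjective s
  have hf : (X ^ 2 - C u : W[X]).Monic := by monicity!
  have hne : residue W u ≠ 0 := by
    rw [residue_ne_zero_iff_isUnit]
    exact hu
  have hs0 : s ≠ 0 := by
    intro h0
    apply hne
    rw [hs, h0, mul_zero]
  have h1 : (X ^ 2 - C u : W[X]).eval a ∈ maximalIdeal W := by
    rw [← residue_eq_zero_iff]
    simp only [eval_sub, eval_pow, eval_X, eval_C, map_sub, map_pow]
    rw [ha, hs]
    ring
  have h3 : IsUnit ((X ^ 2 - C u : W[X]).derivative.eval a) := by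
    rw [← residue_ne_zero_iff_isUnit]
    simp only [derivative_sub, derivative_X_pow, derivative_C, sub_zero, eval_mul, eval_pow,
      eval_X, map_mul]
    simp only [Nat.cast_ofNat, eval_ofNat, map_ofNat]
    rw [map_pow, ha]
    exact mul_ne_zero two_ne_zero (pow_ne_zero _ hs0)
  obtain ⟨w, hw, -⟩ := hW.is_henselian _ hf a h1 h3
  refine ⟨w, ?_⟩
  have h4 : w ^ 2 - u = 0 := by simpa [IsRoot.def] using hw
  exact sub_eq_zero.1 h4

lemma unit_up {K : Type} [Field K] {O W : ValuationSubring K} (h : O ≤ W) (u : O) (hu : IsUnit u) :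
    IsUnit (⟨(u : K), h u.2⟩ : W) := by
  obtain ⟨b, hb⟩ := hu.exists_right_inv
  refine IsUnit.of_mul_eq_one ⟨(b : K), h b.2⟩ ?_
  apply Subtype.ext
  have := congrArg (fun z : O => (z : K)) hb
  simpa using this

lemma mem_of_sq {K : Type} [Field K] (O : ValuationSubring K) (w : K) (h : w ^ 2 ∈ O) : w ∈ O := by
  by_contra hw
  obtain ⟨c, hc, hcw⟩ := inv_max O hw
  have hw0 : w ≠ 0 := fun h => hw (h ▸ O.zero_mem)
  have h1 : (((⟨w ^ 2, h⟩ : O) * c : O) : K) = w := by
    show w ^ 2 * (c : K) = w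
    rw [hcw]
    field_simp
  exact hw (h1 ▸ ((⟨w ^ 2, h⟩ : O) * c).2)

lemma euc_of {K : Type} [Field K] {O W : ValuationSubring K} (h : O ≤ W)
    (hW : HenselianLocalRing W) (h2 : CharZero (ResidueField W))
    (hE : ∀ r : ResidueField W, IsSquare r ∨ IsSquare (-r)) : Euc O := by
  intro r
  obtain ⟨u, hu⟩ := residue_surjective r
  by_cases hun : IsUnit u
  · have hW1 := unit_up h u hun
    rcases hE (residue W ⟨(u : K), h u.2⟩) with hs | hs
    · obtain ⟨w, hw⟩ := sq_lift W hW h2 _ hW1 hs
      have h3 : (w : K) ^ 2 = u := by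
        have := congrArg (fun z : W => (z : K)) hw
        simpa using this
      have hwO : (w : K) ∈ O := mem_of_sq O w (h3 ▸ u.2)
      left
      refine ⟨residue O ⟨w, hwO⟩, ?_⟩
      rw [← map_pow, ← hu]
      congr 1
      apply Subtype.ext
      exact h3.symm
    · have hs' : IsSquare (residue W (-⟨(u : K), h u.2⟩)) := by
        rw [map_neg]
        exact hs
      obtain ⟨w, hw⟩ := sq_lift W hW h2 _ hW1.neg hs'
      have h3 : (w : K) ^ 2 = -u := by
        have := congrArg (fun z : W => (z : K)) hw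
        simpa using this
      have hwO : (w : K) ∈ O := mem_of_sq O w (h3 ▸ (neg_mem u.2))
      right
      refine ⟨residue O ⟨w, hwO⟩, ?_⟩
      rw [← map_pow, ← hu, ← map_neg]
      congr 1
      apply Subtype.ext
      have h4 : (u : K) = -((w : K) ^ 2) := by rw [h3, neg_neg]
      exact h4
  · left
    refine ⟨0, ?_⟩
    rw [← hu]
    have h5 : residue O u = 0 := by
      rw [residue_eq_zero_iff, IsLocalRing.mem_maximalIdeal]
      exact hun
    rw [h5]
    ring

/-- **package RCF** -/
theorem t_RCF : S_RCF := by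
  intro hmain K _ _ _ W O hW hR hO hdef
  have hcW : CharZero (ResidueField W) := char0 W hW
  have hcO : CharZero (ResidueField O) := char0 O hO
  have hE : ∀ r : ResidueField W, IsSquare r ∨ IsSquare (-r) :=
    fun r => hR.isSquare_or_isSquare_neg r
  rcases comp W O hW hO with h | h
  · exact hmain K {x : K | 0 < x} W O cone hW hcW (euc_of le_rfl hW hcW hE) h hdef
  · exact hmain K {x : K | 0 < x} O O cone hO hcO (euc_of h hW hcW hE) le_rfl hdef

end Pool.Agent.U373.AO
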